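import Mathlib
import Pool.Agent.Q154.MS.Dens

/-!
# MP_c36e95_co, Q1: the lower density threshold with a shift

For all integers `l, m ≥ 1` (distinct or not), every set `A` of lower density greater than `1 / 2` contains
`{m b₁ + l b₂ + t : b₁ ≠ b₂ in B}` for some infinite set `B` of positive integers and some `t ≥ 1`.
-/

set_option autoImplicit false

open Filter Topology

namespace Pool.Agent.Results.MP_c36e95_co.ShiftedThreshold

open Pool.Agent.Q154.MS

/-- Q1, affirmatively, for every pair `l, m ≥ 1`. -/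
theorem result (l m : ℕ) (hl : 1 ≤ l) (hm : 1 ≤ m) (A : Set ℕ)
    (hA : (1 : ℝ) / 2 < liminf (fun N : ℕ => ((A ∩ Set.Icc 1 N).ncard : ℝ) / N) atTop) :
    ∃ (B : Set ℕ) (t : ℕ), B.Infinite ∧ (∀ b ∈ B, 1 ≤ b) ∧ 1 ≤ t ∧
      ∀ b₁ ∈ B, ∀ b₂ ∈ B, b₁ ≠ b₂ → m * b₁ + l * b₂ + t ∈ A := by
  obtain ⟨κ, K, hκ, hX⟩ := lower_bound A Aᶜ (fun x hx => hx) _ hA l m hl hm
  have h1 : (2 : ℝ) * (1 - 1 / 2) = 1 := by norm_num
  rw [h1] at hκ
  obtain ⟨t, _, b, hb1, _, hb3⟩ := core l m hl hm Aᶜ 1 κ K one_pos hκ hX (Finset.range (l + m))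
    (Finset.Subset.refl _) (by rw [Finset.card_range, mul_one]; push_cast; exact le_refl _)
  exact shift_pos l m hl A t b hb1 (fun i j hij => not_not.1 (hb3 i j hij))

end Pool.Agent.Results.MP_c36e95_co.ShiftedThreshold
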